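import Pool.Agent.Helper90.Mirror.Main

set_option autoImplicit false

/-!
# Mirrored pairs of optimal entanglement witnesses exist in every dimension `d ≥ 3`

Colour the basis of `ℂ^d` by three colours (all used), `τ : Fin d → Fin 3`. The witness is
`34`-mirrored:
`W_τ = ∑ a(τ k, τ l) |k l⟩⟨k l| + ∑ c(τ k, τ l) |k k⟩⟨l l|`,
with `a(i,i) = 17`, `a(i,i+1) = 2`, `a(i,i-1) = 32`, `c(i,i) = 0`, `c(i,i+1) = 25 i`,
`c(i,i-1) = -25 i`, and `34 - W_τ` is the witness of the colouring with the colours 1 and 2
exchanged. The zero product vectors of `W_τ` span the space.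
-/

namespace Pool.Agent.Results.MP_709dca_mp.MirroredPairs

open Pool.Agent.Helper90.Mirror

/-- For every `d ≥ 3` there are two optimal entanglement witnesses `W`, `M` on `ℂ^d ⊗ ℂ^d` with
`W + M = u I ⊗ I`, `u` real; both are moreover non-decomposable. -/
theorem result : ∀ d : ℕ, 3 ≤ d →
    ∃ W M : Op d, IsMirroredOptimalPair W M ∧ ¬ IsDecomposable W ∧ ¬ IsDecomposable M :=
  exists_mirrored

end Pool.Agent.Results.MP_709dca_mp.MirroredPairs
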